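import Pool.Graph.R_pool_sql_team_seeded_620a6dc7.Helper687_Borel.AutFJ
import Pool.Agent.H347.PS.Orbit
import Pool.Agent.H347.HY.Rigid

set_option autoImplicit false

/-!
# Automorphism groups of iterated extensions with rigid quotients
-/

namespace Pool.Agent.H347.AT

open Subgroup Pool.Agent.H347.PS
open Pool.Agent.Helper687_Borel
open Pool.Agent.Y110.FJ (ClosedE)

variable {C : ∀ (G : Type) [Group G], Prop}

theorem stab_rigid (N : Type) [Group N] [hN : Group.FG N] (K : Subgroup N) [hKn : K.Normal]
    (hK : K.FG) (hR : Rigid (N ⧸ K)) : (stab K).FiniteIndex :=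
  stab_finiteIndex K _ (finite_orbit N K hN hK hR) fun σ => ⟨σ, rfl⟩

/-- The automorphisms of `N` move `K` to finitely many subgroups only. -/
def FewImages {N : Type} [Group N] (K : Subgroup N) : Prop :=
  {L : Subgroup N | ∃ φ : MulAut N, L = K.map (φ : MulAut N).toMonoidHom}.Finite

theorem stab_few {N : Type} [Group N] (K : Subgroup N) (h : FewImages K) : (stab K).FiniteIndex :=
  stab_finiteIndex K _ h fun σ => ⟨σ, rfl⟩

/-- iterated extensions -/
inductive Tower (C : ∀ (G : Type) [Group G], Prop) : ∀ (N : Type) [Group N], Prop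
  | base (N : Type) [Group N] : Group.FG N → C (MulAut N) → Tower C N
  | step (N : Type) [Group N] (K : Subgroup N) [K.Normal] : Tower C K → Group.FG (N ⧸ K) →
      (Rigid (N ⧸ K) ∨ FewImages K) → C (MulAut (N ⧸ K)) → Tower C N
  | fin (N : Type) [Group N] (K : Subgroup N) [K.FiniteIndex] : Tower C K → Tower C N

theorem tower_aut (hC : ACl C) {N : Type} [Group N] (h : Tower C N) :
    Group.FG N ∧ C (MulAut N) := by
  induction h with
  | base N h1 h2 => exact ⟨h1, h2⟩
  | step N K _ h1 h2 h3 ih =>
    have h4 : Group.FG N := Pool.Agent.Helper687_Borel.fg_ext K ih.1 h1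
    have h5 : (stab K).FiniteIndex := by
      rcases h2 with h2 | h2
      · exact stab_rigid N K ((Group.fg_iff_subgroup_fg K).1 ih.1) h2
      · exact stab_few K h2
    exact ⟨h4, aut_ext hC K K le_rfl h5 h5 ih.2 h3⟩
  | fin N K _ ih =>
    have h4 : Group.FG N := fg_fin K ih.1
    exact ⟨h4, aut_fin hC N K ih.2⟩

theorem quot_inf (hC : ACl C) {G : Type} [Group G] (A B : Subgroup G) [A.Normal] [B.Normal]
    (hA : C (G ⧸ A)) (hB : C (G ⧸ B)) : C (G ⧸ (A ⊓ B)) := by
  refine hC.of_injective _ _ (QuotientGroup.lift (A ⊓ B)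
    ((QuotientGroup.mk' A).prod (QuotientGroup.mk' B)) ?_) ?_ (hC.prod _ _ hA hB)
  · intro x hx
    exact Prod.ext ((QuotientGroup.eq_one_iff x).2 hx.1) ((QuotientGroup.eq_one_iff x).2 hx.2)
  · rw [injective_iff_map_eq_one]
    intro x hx
    obtain ⟨x, rfl⟩ := QuotientGroup.mk_surjective x
    have h1 : ((x : G ⧸ A), (x : G ⧸ B)) = (1, 1) := hx
    exact (QuotientGroup.eq_one_iff x).2 ⟨(QuotientGroup.eq_one_iff x).1 (congrArg Prod.fst h1),
      (QuotientGroup.eq_one_iff x).1 (congrArg Prod.snd h1)⟩

/-- finite intersections -/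
theorem quot_finset (hC : ACl C) {G ι : Type} [Group G] (A : ι → Subgroup G) [∀ i, (A i).Normal]
    (h : ∀ i, C (G ⧸ A i)) (s : Finset ι) :
    ∀ (D : Subgroup G) [D.Normal], D = ⨅ i ∈ s, A i → C (G ⧸ D) := by
  classical
  induction s using Finset.induction with
  | empty =>
    intro D _ hD
    have hD' : D = ⊤ := by rw [hD]; simp
    subst hD'
    exact hC.triv _ QuotientGroup.subsingleton_quotient_top
  | insert i s _ ih =>
    intro D hDn hD
    obtain ⟨E, hE⟩ : ∃ E : Subgroup G, E = ⨅ i ∈ s, A i := ⟨_, rfl⟩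
    have hEn : E.Normal := by
      rw [hE]
      exact normal_iInf_normal fun i => normal_iInf_normal fun _ => inferInstance
    have h1 : D = A i ⊓ E := by rw [hD, hE, Finset.iInf_insert]
    subst h1
    exact quot_inf hC (A i) E (h i) (ih E hE)

theorem quot_centralizers (hC : ACl C) {G ι : Type} [Group G] [Finite ι] (N : ι → Subgroup G)
    [∀ i, (N i).Normal] (h : ∀ i, C (MulAut (N i))) (D : Subgroup G) [D.Normal]
    (hD : D = ⨅ i, centralizer (N i : Set G)) : C (G ⧸ D) := by
  have := Fintype.ofFinite ι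
  refine quot_finset hC (fun i => centralizer (N i : Set G))
    (fun i => quot_centralizer hC (N i) (h i)) Finset.univ D ?_
  rw [hD]
  simp

/-- the intersection of the centralizers decides -/
theorem crit_family (hC : ClosedE C) (hS : SolvIn C) {G ι : Type} [Group G] [Finite ι]
    (N : ι → Subgroup G) [∀ i, (N i).Normal] (h : ∀ i, C (MulAut (N i))) (D : Subgroup G)
    (hD : D = ⨅ i, centralizer (N i : Set G)) :
    (C G ↔ ∀ g : G, C ↥(D ⊔ zpowers g)) ∧ (MT C D → C G) ∧
      (Group.IsSolvable D → C G) := by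
  have hDn : D.Normal := by
    rw [hD]
    exact normal_iInf_normal fun i => inferInstance
  have hq := quot_centralizers (acl_of_closedE hC hS) N h D hD
  refine ⟨⟨fun hG g => ?_, fun hg => ?_⟩, fun hM => ext_top hC D hM hq,
    fun hs => ext_top hC D (mt_solv hS _ hs) hq⟩
  · exact hC.base.of_injective _ _ (Subgroup.subtype _) (Subgroup.subtype_injective _) hG
  · have h1 := hg 1
    rw [zpowers_one_eq_bot, sup_bot_eq] at h1
    exact Pool.Agent.Y529.FJ.t_ext C hC G D h1 hq (fun g _ => hg g)

/-- automorphism groups of groups with finite outer automorphism group -/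
theorem aut_of_out (hC : ACl C) (H : Type) [Group H] (hZ : center H = ⊥) (hH : C H)
    (hO : (MulAut.conj : H →* MulAut H).range.FiniteIndex) : C (MulAut H) := by
  refine hC.finiteIndex _ (MulAut.conj : H →* MulAut H).range hO ?_
  have h1 : Function.Injective (MulAut.conj : H →* MulAut H) := by
    rw [← MonoidHom.ker_eq_bot_iff, eq_bot_iff, ← hZ]
    intro x hx
    rw [MonoidHom.mem_ker] at hx
    rw [mem_center_iff]
    intro y
    have h2 : MulAut.conj x y = y := by rw [hx]; rfl
    rw [MulAut.conj_apply] at h2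
    calc y * x = x * y * x⁻¹ * x := by rw [h2]
      _ = x * y := by group
  exact hC.equiv (MonoidHom.ofInjective h1) hH

end Pool.Agent.H347.AT
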